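import Mathlib

/-!
# Internal DLA with uniform driving on a finite graph with a sink
-/

namespace Pool.Agent.IDLA

open MeasureTheory

/-- A graph is vertex-transitive if its automorphism group acts transitively on the vertices. -/
def VertexTransitive {V : Type*} (G : SimpleGraph V) : Prop :=
  ∀ x y : V, ∃ φ : G ≃g G, φ x = y

open Classical in
/-- The transition matrix `P` of simple random walk on `G`, modified so that `z` is absorbing. -/
noncomputable def walkProb {V : Type*} (G : SimpleGraph V) (z x y : V) : ℝ :=
  if x = z then (if y = z then 1 else 0)
  else (if G.Adj x y then 1 / ((G.neighborSet x).ncard : ℝ) else 0)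

open Classical in
/-- The uniform distribution on `V \ {z}`. -/
noncomputable def startProb {V : Type*} [Fintype V] (z x : V) : ℝ :=
  if x = z then 0 else 1 / ((Fintype.card V : ℝ) - 1)

/-- The probability that the walk started uniformly on `V \ {z}` follows the path
`b 0, b 1, ..., b m` in its first `m` steps. -/
noncomputable def pathProb {V : Type*} [Fintype V] (G : SimpleGraph V) (z : V) {m : ℕ}
    (b : Fin (m + 1) → V) : ℝ :=
  startProb z (b 0) * ∏ k : Fin m, walkProb G z (b k.castSucc) (b k.succ)

/-- The random variables driving internal DLA. `X t k` is the position after `k` steps of the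
walk given to the particle number `t + 1`, so that `X t 0` is the uniform random vertex
`u_{t+1}` of `V \ {z}` at which this particle is added. The walks are independent `P`-walks:
the joint law of the first `m` steps of the first `T` walks is given by the product formula. -/
structure IsDriving {V : Type*} [Fintype V] (G : SimpleGraph V) (z : V) {Ω : Type*}
    [MeasurableSpace Ω] (μ : Measure Ω) (X : ℕ → ℕ → Ω → V) : Prop where
  measurable : ∀ (t k : ℕ) (v : V), MeasurableSet {ω | X t k ω = v}
  law : ∀ (T m : ℕ) (a : Fin T → Fin (m + 1) → V),
    μ.real {ω | ∀ (t : Fin T) (k : Fin (m + 1)), X t k ω = a t k} = ∏ t, pathProb G z (a t)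

open Classical in
/-- One step of internal DLA: the set of occupied vertices after the addition of a particle
whose walk is `x 0, x 1, x 2, ...`, if `σ` (a set not containing the sink `z`) is the set of
occupied vertices before. The particle walks until it first reaches a vertex which is not
occupied; if this vertex is the sink then the particle is removed, and otherwise it occupies
this vertex. (If the walk never leaves `σ`, then nothing is changed.) -/
noncomputable def addParticle {V : Type*} [DecidableEq V] (z : V) (σ : Finset V) (x : ℕ → V) :
    Finset V :=
  if h : ∃ k, x k ∉ σ then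
    (if x (Nat.find h) = z then σ else insert (x (Nat.find h)) σ)
  else σ

/-- The set `σ_t` of occupied vertices after `t` particles, when `x t` is the walk of the
particle number `t + 1`. -/
noncomputable def occupied {V : Type*} [DecidableEq V] (z : V) (x : ℕ → ℕ → V) : ℕ → Finset V
  | 0 => ∅
  | t + 1 => addParticle z (occupied z x t) (x t)

/-- The filling time `T_full = min {t : σ_t = V \ {z}}`; it is `⊤` if there is no such `t`. -/
noncomputable def fillTime {V : Type*} [Fintype V] [DecidableEq V] (z : V) (x : ℕ → ℕ → V) : ℕ∞ :=
  sInf {s : ℕ∞ | ∃ t : ℕ, s = (t : ℕ∞) ∧ occupied z x t = Finset.univ.erase z}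

end Pool.Agent.IDLA
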