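import Mathlib
import Pool.Agent.IDLA.Defs

/-!
# The walk stopped when it leaves a finite set
-/

namespace Pool.Agent.IDLA

open Finset

set_option linter.unusedSectionVars false

variable {V : Type*} [Fintype V] [DecidableEq V]

/-- The position of the path `b` when it leaves `σ` (or at its end). -/
def st (σ : Finset V) : (m : ℕ) → (Fin (m + 1) → V) → V
  | 0, b => b 0
  | m + 1, b => if b 0 ∈ σ then st σ m (fun k => b k.succ) else b 0

/-- Transition part of the path probability. -/
noncomputable def tr (G : SimpleGraph V) (z : V) {m : ℕ} (b : Fin (m + 1) → V) : ℝ :=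
  ∏ k : Fin m, walkProb G z (b k.castSucc) (b k.succ)

/-- Expectation of `g` at the stopped walk after `m` steps, started from `v`. -/
noncomputable def EE (G : SimpleGraph V) (z : V) (σ : Finset V) (m : ℕ) (g : V → ℝ) (v : V) : ℝ :=
  ∑ b : Fin m → V, tr G z (Fin.cons v b : Fin (m + 1) → V) *
    g (st σ m (Fin.cons v b : Fin (m + 1) → V))

theorem walkProb_nonneg (G : SimpleGraph V) (z x y : V) : 0 ≤ walkProb G z x y := by
  unfold walkProb
  split_ifs <;> positivity

theorem walkProb_sum (G : SimpleGraph V) (hG : G.Connected) (z x : V) :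
    ∑ y, walkProb G z x y = 1 := by
  classical
  unfold walkProb
  by_cases hx : x = z
  · simp only [hx, if_true]
    rw [Finset.sum_eq_single z]
    · simp
    · intro b _ hb
      simp [hb]
    · intro h
      exact absurd (Finset.mem_univ z) h
  · simp only [hx, if_false]
    rw [← Finset.sum_filter, Finset.sum_const, nsmul_eq_mul]
    have h1 : (G.neighborSet x).ncard = (Finset.univ.filter (fun y => G.Adj x y)).card := by
      rw [← Set.ncard_coe_finset]
      congr 1
      ext y
      simp
    rw [h1]
    have hpos : 0 < (Finset.univ.filter (fun y => G.Adj x y)).card := by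
      rw [Finset.card_pos]
      obtain ⟨p⟩ := hG.preconnected x z
      cases p with
      | nil => exact absurd rfl hx
      | cons h _ => exact ⟨_, Finset.mem_filter.2 ⟨Finset.mem_univ _, h⟩⟩
    have : ((Finset.univ.filter (fun y => G.Adj x y)).card : ℝ) ≠ 0 := by
      exact_mod_cast hpos.ne'
    field_simp

theorem tr_cons (G : SimpleGraph V) (z : V) {m : ℕ} (v : V) (b : Fin (m + 1) → V) :
    tr G z (Fin.cons v b : Fin (m + 2) → V) = walkProb G z v (b 0) * tr G z b := by
  unfold tr
  rw [Fin.prod_univ_succ]
  rfl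

theorem st_cons (σ : Finset V) (m : ℕ) (v : V) (b : Fin (m + 1) → V) :
    st σ (m + 1) (Fin.cons v b : Fin (m + 2) → V) = if v ∈ σ then st σ m b else v := rfl

theorem sum_cons {m : ℕ} (F : (Fin (m + 1) → V) → ℝ) :
    ∑ b : Fin (m + 1) → V, F b = ∑ v : V, ∑ b : Fin m → V, F (Fin.cons v b) := by
  rw [← Fintype.sum_prod_type', ← (Fin.consEquiv (fun _ : Fin (m + 1) => V)).sum_comp]
  rfl

theorem EE_zero (G : SimpleGraph V) (z : V) (σ : Finset V) (g : V → ℝ) (v : V) :
    EE G z σ 0 g v = g v := by
  unfold EE
  rw [Fintype.sum_unique]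
  unfold tr st
  simp

theorem tr_sum (G : SimpleGraph V) (hG : G.Connected) (z : V) (m : ℕ) (v : V) :
    ∑ b : Fin m → V, tr G z (Fin.cons v b : Fin (m + 1) → V) = 1 := by
  induction m generalizing v with
  | zero =>
    rw [Fintype.sum_unique]
    unfold tr
    simp
  | succ m ih =>
    rw [sum_cons]
    have : ∀ u : V, ∑ b : Fin m → V, tr G z (Fin.cons v (Fin.cons u b : Fin (m + 1) → V) :
        Fin (m + 2) → V) = walkProb G z v u := by
      intro u
      simp only [tr_cons, Fin.cons_zero]
      rw [← Finset.mul_sum, ih, mul_one]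
    simp only [this]
    exact walkProb_sum G hG z v

theorem EE_succ (G : SimpleGraph V) (hG : G.Connected) (z : V) (σ : Finset V) (m : ℕ)
    (g : V → ℝ) (v : V) :
    EE G z σ (m + 1) g v = if v ∈ σ then ∑ u, walkProb G z v u * EE G z σ m g u else g v := by
  by_cases hv : v ∈ σ
  · rw [if_pos hv]
    unfold EE
    rw [sum_cons]
    apply Finset.sum_congr rfl
    intro u _
    rw [Finset.mul_sum]
    apply Finset.sum_congr rfl
    intro b _
    rw [tr_cons, st_cons, if_pos hv, Fin.cons_zero, mul_assoc]
  · rw [if_neg hv]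
    unfold EE
    simp only [st_cons, if_neg hv]
    rw [← Finset.sum_mul, tr_sum G hG z (m + 1) v, one_mul]

theorem pathProb_eq (G : SimpleGraph V) (z : V) {m : ℕ} (b : Fin (m + 1) → V) :
    pathProb G z b = startProb z (b 0) * tr G z b := rfl

theorem pathProb_sum_st (G : SimpleGraph V) (z : V) (σ : Finset V) (m : ℕ) (g : V → ℝ) :
    ∑ b : Fin (m + 1) → V, pathProb G z b * g (st σ m b) =
      ∑ v, startProb z v * EE G z σ m g v := by
  rw [sum_cons]
  apply Finset.sum_congr rfl
  intro v _
  unfold EE
  rw [Finset.mul_sum]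
  apply Finset.sum_congr rfl
  intro b _
  rw [pathProb_eq, Fin.cons_zero, mul_assoc]

theorem startProb_nonneg (hV : 2 ≤ Fintype.card V) (z v : V) : 0 ≤ startProb z v := by
  unfold startProb
  split_ifs
  · exact le_refl _
  · have : (2 : ℝ) ≤ Fintype.card V := by exact_mod_cast hV
    have : (0 : ℝ) < (Fintype.card V : ℝ) - 1 := by linarith
    positivity

theorem startProb_sum_mul (z : V) (g : V → ℝ) :
    ∑ v, startProb z v * g v = (∑ v ∈ univ.erase z, g v) / ((Fintype.card V : ℝ) - 1) := by
  unfold startProb
  rw [← Finset.add_sum_erase _ _ (Finset.mem_univ z)]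
  simp only [if_true, zero_mul, zero_add]
  rw [Finset.sum_div]
  apply Finset.sum_congr rfl
  intro v hv
  rw [if_neg (Finset.ne_of_mem_erase hv)]
  ring

theorem startProb_sum (hV : 2 ≤ Fintype.card V) (z : V) : ∑ v, startProb z v = 1 := by
  have h := startProb_sum_mul z (fun _ => (1 : ℝ))
  simp only [mul_one] at h
  rw [h, Finset.sum_const, nsmul_eq_mul, mul_one, Finset.card_erase_of_mem (Finset.mem_univ z),
    Finset.card_univ]
  have h2 : (2 : ℝ) ≤ Fintype.card V := by exact_mod_cast hV
  rw [Nat.cast_sub (by omega), Nat.cast_one]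
  apply div_self
  linarith

theorem pathProb_nonneg (hV : 2 ≤ Fintype.card V) (G : SimpleGraph V) (z : V) {m : ℕ}
    (b : Fin (m + 1) → V) : 0 ≤ pathProb G z b := by
  unfold pathProb
  apply mul_nonneg (startProb_nonneg hV z _)
  apply Finset.prod_nonneg
  intro k _
  exact walkProb_nonneg G z _ _

/-! ### Properties of the stopped expectation -/

section

variable (G : SimpleGraph V) (hG : G.Connected) (z : V) (σ : Finset V)

include hG in
theorem EE_mono {m : ℕ} {f g : V → ℝ} (h : ∀ v, f v ≤ g v) (v : V) :
    EE G z σ m f v ≤ EE G z σ m g v := by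
  induction m generalizing v with
  | zero => rw [EE_zero, EE_zero]; exact h v
  | succ m ih =>
    rw [EE_succ G hG, EE_succ G hG]
    split_ifs
    · apply Finset.sum_le_sum
      intro u _
      exact mul_le_mul_of_nonneg_left (ih u) (walkProb_nonneg G z v u)
    · exact h v

theorem EE_add {m : ℕ} (f g : V → ℝ) (v : V) :
    EE G z σ m (fun u => f u + g u) v = EE G z σ m f v + EE G z σ m g v := by
  unfold EE
  rw [← Finset.sum_add_distrib]
  apply Finset.sum_congr rfl
  intro b _
  ring

theorem EE_smul {m : ℕ} (c : ℝ) (f : V → ℝ) (v : V) :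
    EE G z σ m (fun u => c * f u) v = c * EE G z σ m f v := by
  unfold EE
  rw [Finset.mul_sum]
  apply Finset.sum_congr rfl
  intro b _
  ring

include hG in
theorem EE_const {m : ℕ} (c : ℝ) (v : V) : EE G z σ m (fun _ => c) v = c := by
  unfold EE
  rw [← Finset.sum_mul, tr_sum G hG z m v, one_mul]

include hG in
/-- Harmonic functions are preserved. -/
theorem EE_harm {m : ℕ} {h : V → ℝ} (hh : ∀ v ∈ σ, ∑ u, walkProb G z v u * h u = h v) (v : V) :
    EE G z σ m h v = h v := by
  induction m generalizing v with
  | zero => rw [EE_zero]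
  | succ m ih =>
    rw [EE_succ G hG]
    split_ifs with hv
    · rw [← hh v hv]
      apply Finset.sum_congr rfl
      intro u _
      rw [ih u]
    · rfl

/-- Indicator of `σ`. -/
noncomputable def ind (v : V) : ℝ := if v ∈ σ then 1 else 0

/-- The tail `P_v(not yet left σ after m steps)`. -/
noncomputable def tail (m : ℕ) (v : V) : ℝ := EE G z σ m (ind σ) v

include hG in
theorem tail_nonneg (m : ℕ) (v : V) : 0 ≤ tail G z σ m v := by
  unfold tail
  have h := EE_mono G hG z σ (m := m) (f := fun _ => 0) (g := ind σ)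
    (by intro v; unfold ind; split_ifs <;> norm_num) v
  rwa [EE_const G hG] at h

include hG in
theorem tail_succ_le (m : ℕ) (v : V) : tail G z σ (m + 1) v ≤ tail G z σ m v := by
  induction m generalizing v with
  | zero =>
    unfold tail
    rw [EE_succ G hG, EE_zero]
    simp only [EE_zero]
    by_cases hv : v ∈ σ
    · rw [if_pos hv]
      have : ind σ v = 1 := by unfold ind; rw [if_pos hv]
      rw [this, ← walkProb_sum G hG z v]
      apply Finset.sum_le_sum
      intro u _
      have h1 : ind σ u ≤ 1 := by unfold ind; split_ifs <;> norm_num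
      calc walkProb G z v u * ind σ u ≤ walkProb G z v u * 1 :=
            mul_le_mul_of_nonneg_left h1 (walkProb_nonneg G z v u)
        _ = walkProb G z v u := mul_one _
    · rw [if_neg hv]
  | succ m ih =>
    unfold tail at ih ⊢
    rw [EE_succ G hG, EE_succ G hG]
    split_ifs with hv
    · apply Finset.sum_le_sum
      intro u _
      exact mul_le_mul_of_nonneg_left (ih u) (walkProb_nonneg G z v u)
    · exact le_refl _

include hG in
theorem tail_antitone (v : V) : Antitone (fun m => tail G z σ m v) :=
  antitone_nat_of_succ_le (fun m => tail_succ_le G hG z σ m v)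

include hG in
/-- If `ψ ≥ 0` is bounded by `1` and increases by `c` in mean on `σ` then the tail is at most
`1 / (c m)`. -/
theorem tail_le {ψ : V → ℝ} {c : ℝ} (hψ0 : ∀ v, 0 ≤ ψ v) (hψ1 : ∀ v, ψ v ≤ 1)
    (hψ : ∀ v ∈ σ, ψ v + c ≤ ∑ u, walkProb G z v u * ψ u) (m : ℕ) (v : V) :
    c * ∑ k ∈ range m, tail G z σ k v ≤ 1 := by
  have key : ∀ (k : ℕ) (v : V), EE G z σ k ψ v + c * tail G z σ k v ≤ EE G z σ (k + 1) ψ v := by
    intro k
    induction k with
    | zero =>
      intro v
      unfold tail
      rw [EE_succ G hG, EE_zero, EE_zero]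
      simp only [EE_zero]
      unfold ind
      split_ifs with hv
      · rw [mul_one]; exact hψ v hv
      · simp
    | succ k ih =>
      intro v
      rw [EE_succ G hG z σ (k + 1)]
      unfold tail at ih ⊢
      rw [EE_succ G hG z σ k, EE_succ G hG z σ k]
      split_ifs with hv
      · rw [Finset.mul_sum, ← Finset.sum_add_distrib]
        apply Finset.sum_le_sum
        intro u _
        have := mul_le_mul_of_nonneg_left (ih u) (walkProb_nonneg G z v u)
        linarith
      · unfold ind
        rw [if_neg hv]
        simp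
  have h2 : ∀ m, EE G z σ 0 ψ v + c * ∑ k ∈ range m, tail G z σ k v ≤ EE G z σ m ψ v := by
    intro m
    induction m with
    | zero => simp
    | succ m ih =>
      rw [Finset.sum_range_succ, mul_add]
      have := key m v
      linarith
  have h3 : EE G z σ m ψ v ≤ 1 := by
    have := EE_mono G hG z σ (m := m) (f := ψ) (g := fun _ => 1) hψ1 v
    rwa [EE_const G hG] at this
  have h4 := h2 m
  rw [EE_zero] at h4
  have := hψ0 v
  linarith

end

end Pool.Agent.IDLA
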