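import Mathlib
import Pool.Agent.IDLA.Exit

/-!
# Existence of the driving walks
-/

namespace Pool.Agent.IDLA

open Finset MeasureTheory

set_option linter.unusedSectionVars false

universe u

variable {V : Type u} [Fintype V] [DecidableEq V]

/-- Law of the starting point. -/
noncomputable def startPMF (hV : 2 ≤ Fintype.card V) (z : V) : PMF V :=
  PMF.ofFintype (fun v => ENNReal.ofReal (startProb z v)) (by
    rw [← ENNReal.ofReal_sum_of_nonneg (fun v _ => startProb_nonneg hV z v), startProb_sum hV z,
      ENNReal.ofReal_one])

/-- Law of a step. -/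
noncomputable def stepPMF (G : SimpleGraph V) (hG : G.Connected) (z x : V) : PMF V :=
  PMF.ofFintype (fun v => ENNReal.ofReal (walkProb G z x v)) (by
    rw [← ENNReal.ofReal_sum_of_nonneg (fun v _ => walkProb_nonneg G z x v),
      walkProb_sum G hG z x, ENNReal.ofReal_one])

/-- The walks built from independent instructions. -/
def XX (z : V) (t : ℕ) : ℕ → (ℕ × ℕ × V → V) → V
  | 0, ω => ω (t, 0, z)
  | k + 1, ω => ω (t, k + 1, XX z t k ω)

/-- Index of the instruction used. -/
def JJ (z : V) (a : ℕ → ℕ → V) (p : ℕ × ℕ) : ℕ × ℕ × V :=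
  (p.1, p.2, if p.2 = 0 then z else a p.1 (p.2 - 1))

theorem JJ_inj (z : V) (a : ℕ → ℕ → V) : Function.Injective (JJ z a) := by
  rintro ⟨t, k⟩ ⟨t', k'⟩ h
  unfold JJ at h
  simp only [Prod.mk.injEq] at h
  rw [h.1, h.2.1]

theorem XX_iff (z : V) (a : ℕ → ℕ → V) (t m : ℕ) (ω : ℕ × ℕ × V → V) :
    (∀ k ≤ m, XX z t k ω = a t k) ↔ (∀ k ≤ m, ω (JJ z a (t, k)) = a t k) := by
  induction m with
  | zero =>
    constructor
    · intro h k hk
      have : k = 0 := by omega
      subst this
      exact h 0 le_rfl
    · intro h k hk
      have : k = 0 := by omega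
      subst this
      exact h 0 le_rfl
  | succ m ih =>
    constructor
    · intro h k hk
      by_cases hk' : k ≤ m
      · exact (ih.1 (fun k hk => h k (by omega))) k hk'
      · have : k = m + 1 := by omega
        subst this
        have h1 := h (m + 1) le_rfl
        have h2 := h m (by omega)
        change ω (t, m + 1, XX z t m ω) = a t (m + 1) at h1
        rw [h2] at h1
        exact h1
    · intro h k hk
      by_cases hk' : k ≤ m
      · exact (ih.2 (fun k hk => h k (by omega))) k hk'
      · have : k = m + 1 := by omega
        subst this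
        have h1 := h (m + 1) le_rfl
        have h2 := (ih.2 (fun k hk => h k (by omega))) m le_rfl
        change ω (t, m + 1, XX z t m ω) = a t (m + 1)
        rw [h2]
        exact h1

/-- **Existence.** For every finite connected graph with at least two vertices and every sink
there are driving walks. -/
theorem exists_driving (G : SimpleGraph V) (hG : G.Connected) (hV : 2 ≤ Fintype.card V) (z : V) :
    ∃ (Ω : Type u) (_ : MeasurableSpace Ω) (μ : Measure Ω) (_ : IsProbabilityMeasure μ)
      (X : ℕ → ℕ → Ω → V), IsDriving G z μ X := by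
  let _ : MeasurableSpace V := ⊤
  have _ : DiscreteMeasurableSpace V := ⟨fun _ => trivial⟩
  let κ : (ℕ × ℕ × V) → Measure V := fun i =>
    if i.2.1 = 0 then (startPMF hV z).toMeasure else (stepPMF G hG z i.2.2).toMeasure
  have hκ : ∀ i, IsProbabilityMeasure (κ i) := by
    intro i
    change IsProbabilityMeasure
      (if i.2.1 = 0 then (startPMF hV z).toMeasure else (stepPMF G hG z i.2.2).toMeasure)
    split_ifs <;> infer_instance
  refine ⟨(ℕ × ℕ × V) → V, inferInstance, Measure.infinitePi κ, inferInstance,
    fun t k ω => XX z t k ω, ?_, ?_⟩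
  · intro t k
    induction k with
    | zero =>
      intro v
      have hm : Measurable (fun ω : (ℕ × ℕ × V) → V => ω (t, 0, z)) := measurable_pi_apply _
      have hs : MeasurableSet ({v} : Set V) := MeasurableSet.of_discrete
      exact hm hs
    | succ k ih =>
      intro v
      have : {ω : (ℕ × ℕ × V) → V | XX z t (k + 1) ω = v} =
          ⋃ u : V, ({ω | XX z t k ω = u} ∩ {ω | ω (t, k + 1, u) = v}) := by
        ext ω
        simp only [Set.mem_iUnion]
        constructor
        · intro h
          exact ⟨XX z t k ω, rfl, h⟩
        · rintro ⟨u, h1, h2⟩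
          change ω (t, k + 1, XX z t k ω) = v
          have h1' : XX z t k ω = u := h1
          rw [h1']
          exact h2
      rw [this]
      refine MeasurableSet.iUnion (fun u => (ih u).inter ?_)
      have hm : Measurable (fun ω : (ℕ × ℕ × V) → V => ω (t, k + 1, u)) := measurable_pi_apply _
      have hs : MeasurableSet ({v} : Set V) := MeasurableSet.of_discrete
      exact hm hs
  · intro T m a
    -- extend the array
    let a' : ℕ → ℕ → V := fun t k =>
      if h : t < T ∧ k < m + 1 then a ⟨t, h.1⟩ ⟨k, h.2⟩ else z
    have ha' : ∀ (t : Fin T) (k : Fin (m + 1)), a' t k = a t k := by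
      intro t k
      change (if h : (t : ℕ) < T ∧ (k : ℕ) < m + 1 then a ⟨t, h.1⟩ ⟨k, h.2⟩ else z) = a t k
      rw [dif_pos ⟨t.2, k.2⟩]
    let B : (ℕ × ℕ × V) → Set V := fun i => {a' i.1 i.2.1}
    let s : Finset (ℕ × ℕ × V) := (Finset.range T ×ˢ Finset.range (m + 1)).image (JJ z a')
    have hset : {ω : (ℕ × ℕ × V) → V | ∀ (t : Fin T) (k : Fin (m + 1)), XX z t k ω = a t k} =
        Set.pi s B := by
      ext ω
      constructor
      · intro h i hi
        obtain ⟨⟨t, k⟩, htk, rfl⟩ := Finset.mem_image.1 hi
        rw [Finset.mem_product, Finset.mem_range, Finset.mem_range] at htk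
        have h1 : ∀ k ≤ m, XX z t k ω = a' t k := by
          intro k hk
          have := h ⟨t, htk.1⟩ ⟨k, by omega⟩
          rw [← ha'] at this
          exact this
        have h2 := (XX_iff z a' t m ω).1 h1 k (by have := htk.2; simp only at this; omega)
        exact h2
      · intro h t k
        have h1 : ∀ k ≤ m, ω (JJ z a' (t, k)) = a' t k := by
          intro k hk
          have : JJ z a' ((t : ℕ), k) ∈ s := by
            apply Finset.mem_image_of_mem
            rw [Finset.mem_product, Finset.mem_range, Finset.mem_range]
            exact ⟨t.2, by simp only; omega⟩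
          exact h _ this
        have h2 := (XX_iff z a' t m ω).2 h1 k (by omega)
        rw [← ha']
        exact h2
    rw [hset, measureReal_def, Measure.infinitePi_pi _ (fun _ _ => MeasurableSet.of_discrete)]
    change (∏ i ∈ (Finset.range T ×ˢ Finset.range (m + 1)).image (JJ z a'), κ i (B i)).toReal = _
    rw [Finset.prod_image (fun x _ y _ h => JJ_inj z a' h), Finset.prod_product, ENNReal.toReal_prod,
      Finset.prod_range]
    apply Finset.prod_congr rfl
    intro t _
    rw [ENNReal.toReal_prod, Finset.prod_range_succ', mul_comm, Finset.prod_range]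
    unfold pathProb
    congr 1
    · change ((startPMF hV z).toMeasure {a' t 0}).toReal = startProb z (a t 0)
      rw [PMF.toMeasure_apply_singleton _ _ MeasurableSet.of_discrete]
      change (ENNReal.ofReal (startProb z (a' t 0))).toReal = _
      rw [ENNReal.toReal_ofReal (startProb_nonneg hV z _)]
      congr 1
      exact ha' t 0
    · apply Finset.prod_congr rfl
      intro k _
      change ((stepPMF G hG z (a' t k)).toMeasure {a' t (k + 1)}).toReal = _
      rw [PMF.toMeasure_apply_singleton _ _ MeasurableSet.of_discrete]
      change (ENNReal.ofReal (walkProb G z (a' t k) (a' t (k + 1)))).toReal = _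
      rw [ENNReal.toReal_ofReal (walkProb_nonneg G z _ _)]
      have h1 : a' t k = a t k.castSucc := ha' t k.castSucc
      have h2 : a' t (k + 1) = a t k.succ := ha' t k.succ
      rw [h1, h2]

end Pool.Agent.IDLA
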