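import Mathlib

/-!
# Hitting probabilities on finite transitive graphs

For two distinct vertices `w`, `z` of a finite connected vertex-transitive graph, the function
`h` with `h w = 1`, `h z = 0`, harmonic elsewhere, has average `1/2`.
-/

namespace Pool.Agent.IDLA

open Matrix Finset

variable {V : Type*} [Fintype V] [DecidableEq V]

/-- Laplacian plus the all-ones matrix. -/
noncomputable def MM (G : SimpleGraph V) [DecidableRel G.Adj] : Matrix V V ℝ :=
  G.lapMatrix ℝ + Matrix.of (fun _ _ => (1 : ℝ))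

variable (G : SimpleGraph V) [DecidableRel G.Adj]

theorem MM_mulVec (x : V → ℝ) (v : V) :
    (MM G *ᵥ x) v = (G.degree v * x v - ∑ u ∈ G.neighborFinset v, x u) + ∑ u, x u := by
  unfold MM
  rw [Matrix.add_mulVec, Pi.add_apply, SimpleGraph.lapMatrix_mulVec_apply]
  congr 1
  simp [Matrix.mulVec, dotProduct]

theorem MM_quad (x : V → ℝ) : x ⬝ᵥ (MM G *ᵥ x) =
    (∑ i : V, ∑ j : V, if G.Adj i j then (x i - x j) ^ 2 else 0) / 2 + (∑ u, x u) ^ 2 := by
  have h1 := SimpleGraph.lapMatrix_toLinearMap₂' (R := ℝ) G x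
  rw [Matrix.toLinearMap₂'_apply'] at h1
  unfold MM
  rw [Matrix.add_mulVec, dotProduct_add, h1]
  congr 1
  simp only [Matrix.mulVec, dotProduct, Matrix.of_apply, one_mul]
  rw [← Finset.sum_mul, sq]

theorem MM_quad_nonneg (x : V → ℝ) : 0 ≤ x ⬝ᵥ (MM G *ᵥ x) := by
  rw [MM_quad]
  have : 0 ≤ (∑ i : V, ∑ j : V, if G.Adj i j then (x i - x j) ^ 2 else 0) := by
    apply Finset.sum_nonneg; intro i _
    apply Finset.sum_nonneg; intro j _
    split_ifs <;> positivity
  positivity

theorem MM_quad_eq_zero (hG : G.Connected) (x : V → ℝ) (h : x ⬝ᵥ (MM G *ᵥ x) = 0) : x = 0 := by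
  rw [MM_quad] at h
  have h1 : 0 ≤ (∑ i : V, ∑ j : V, if G.Adj i j then (x i - x j) ^ 2 else 0) := by
    apply Finset.sum_nonneg; intro i _
    apply Finset.sum_nonneg; intro j _
    split_ifs <;> positivity
  have h2 : 0 ≤ (∑ u, x u) ^ 2 := sq_nonneg _
  have h3 : (∑ i : V, ∑ j : V, if G.Adj i j then (x i - x j) ^ 2 else 0) = 0 := by linarith
  have h4 : (∑ u, x u) ^ 2 = 0 := by linarith
  have h5 : ∑ u, x u = 0 := by
    exact pow_eq_zero_iff (two_ne_zero) |>.1 h4
  have h6 : (G.lapMatrix ℝ).toLinearMap₂' ℝ x x = 0 := by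
    rw [SimpleGraph.lapMatrix_toLinearMap₂', h3, zero_div]
  rw [SimpleGraph.lapMatrix_toLinearMap₂'_apply'_eq_zero_iff_forall_reachable] at h6
  have hc : ∀ i j, x i = x j := fun i j => h6 i j (hG.preconnected i j)
  ext i
  have h7 : ∑ u, x u = Fintype.card V * x i := by
    rw [Finset.sum_congr rfl (fun u _ => hc u i)]
    simp
  rw [h5] at h7
  have : (Fintype.card V : ℝ) ≠ 0 := by
    have : Nonempty V := ⟨i⟩
    exact_mod_cast Fintype.card_ne_zero
  have h8 : x i = 0 := by
    rcases mul_eq_zero.1 h7.symm with h | h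
    · exact absurd h this
    · exact h
  simpa using h8

theorem MM_isSymm : (MM G).IsSymm := by
  unfold MM
  have h1 : (G.lapMatrix ℝ).IsSymm := SimpleGraph.isSymm_lapMatrix ℝ G
  refine h1.add ?_
  ext i j
  rfl

theorem MM_det (hG : G.Connected) : (MM G).det ≠ 0 := by
  intro h
  rw [← Matrix.exists_mulVec_eq_zero_iff] at h
  obtain ⟨x, hx, h0⟩ := h
  apply hx
  apply MM_quad_eq_zero G hG
  rw [h0, dotProduct_zero]

/-- The Green matrix. -/
noncomputable def KK : Matrix V V ℝ := (MM G)⁻¹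

theorem MM_mul_KK (hG : G.Connected) : MM G * KK G = 1 :=
  Matrix.mul_nonsing_inv _ (isUnit_iff_ne_zero.2 (MM_det G hG))

theorem KK_mul_MM (hG : G.Connected) : KK G * MM G = 1 :=
  Matrix.nonsing_inv_mul _ (isUnit_iff_ne_zero.2 (MM_det G hG))

theorem KK_symm (i j : V) : KK G i j = KK G j i := by
  have h : (KK G)ᵀ = KK G := by
    unfold KK
    rw [Matrix.transpose_nonsing_inv, MM_isSymm G]
  exact congrFun (congrFun h j) i

theorem MM_aut (φ : G ≃g G) (i j : V) : MM G (φ i) (φ j) = MM G i j := by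
  unfold MM SimpleGraph.lapMatrix SimpleGraph.degMatrix
  simp only [Matrix.add_apply, Matrix.sub_apply, Matrix.diagonal_apply, Matrix.of_apply,
    SimpleGraph.adjMatrix_apply, φ.map_adj_iff, EmbeddingLike.apply_eq_iff_eq]
  rw [show G.degree (φ i) = G.degree i from φ.degree_eq i]

theorem KK_aut (hG : G.Connected) (φ : G ≃g G) (i j : V) : KK G (φ i) (φ j) = KK G i j := by
  -- the permuted matrix is also an inverse
  let K' : Matrix V V ℝ := Matrix.of (fun a b => KK G (φ a) (φ b))
  have h1 : MM G * K' = 1 := by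
    ext a b
    rw [Matrix.mul_apply]
    have : ∑ c, MM G a c * K' c b = ∑ c, MM G (φ a) (φ c) * KK G (φ c) (φ b) := by
      apply Finset.sum_congr rfl
      intro c _
      rw [MM_aut]
      rfl
    rw [this]
    have h2 : ∑ c, MM G (φ a) (φ c) * KK G (φ c) (φ b) = ∑ c, MM G (φ a) c * KK G c (φ b) :=
      Equiv.sum_comp φ.toEquiv (fun c => MM G (φ a) c * KK G c (φ b))
    rw [h2, ← Matrix.mul_apply, MM_mul_KK G hG, Matrix.one_apply, Matrix.one_apply]
    simp
  have h2 : K' = KK G := by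
    calc K' = (KK G * MM G) * K' := by rw [KK_mul_MM G hG, Matrix.one_mul]
      _ = KK G * (MM G * K') := by rw [Matrix.mul_assoc]
      _ = KK G := by rw [h1, Matrix.mul_one]
  exact congrFun (congrFun h2 i) j

/-- The harmonic function with boundary values `1` at `w` and `0` at `z` has average `1/2`. -/
theorem exists_harmonic (hG : G.Connected) (htr : ∀ x y : V, ∃ φ : G ≃g G, φ x = y)
    (w z : V) (hwz : w ≠ z) :
    ∃ h : V → ℝ, h w = 1 ∧ h z = 0 ∧ (∀ v, 0 ≤ h v) ∧ (∀ v, h v ≤ 1) ∧
      (∀ v, v ≠ w → v ≠ z → ∑ u ∈ G.neighborFinset v, h u = G.degree v * h v) ∧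
      ∑ v, h v = (Fintype.card V : ℝ) / 2 := by
  -- f = K (e_w - e_z)
  let ew : V → ℝ := Pi.single w (1 : ℝ)
  let ez : V → ℝ := Pi.single z (1 : ℝ)
  let b : V → ℝ := ew - ez
  have eww : ew w = 1 := Pi.single_eq_same _ _
  have ezz : ez z = 1 := Pi.single_eq_same _ _
  have ew' : ∀ v, v ≠ w → ew v = 0 := fun v hv => Pi.single_eq_of_ne hv _
  have ez' : ∀ v, v ≠ z → ez v = 0 := fun v hv => Pi.single_eq_of_ne hv _
  let f : V → ℝ := KK G *ᵥ b
  have hMf : MM G *ᵥ f = b := by
    change MM G *ᵥ (KK G *ᵥ b) = b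
    rw [Matrix.mulVec_mulVec, MM_mul_KK G hG, Matrix.one_mulVec]
  have hfv : ∀ v, f v = KK G v w - KK G v z := by
    intro v
    change (KK G *ᵥ (ew - ez)) v = _
    rw [Matrix.mulVec_sub]
    change (KK G *ᵥ (Pi.single w (1 : ℝ))) v - (KK G *ᵥ (Pi.single z (1 : ℝ))) v = _
    rw [Matrix.mulVec_single_one, Matrix.mulVec_single_one]
    rfl
  have hbsum : ∑ v, b v = 0 := by
    change ∑ v, (ew v - ez v) = 0
    rw [Finset.sum_sub_distrib]
    simp [ew, ez]
  -- sum of f is zero
  have hMsum : ∀ x : V → ℝ, ∑ v, (MM G *ᵥ x) v = Fintype.card V * ∑ u, x u := by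
    intro x
    have hsym : (MM G)ᵀ = MM G := MM_isSymm G
    have h1 : ∑ v, (MM G *ᵥ x) v = (fun _ => (1 : ℝ)) ⬝ᵥ (MM G *ᵥ x) := by
      simp [dotProduct]
    rw [h1, Matrix.dotProduct_mulVec, ← Matrix.mulVec_transpose, hsym]
    have h2 : MM G *ᵥ (fun _ => (1 : ℝ)) = fun _ => (Fintype.card V : ℝ) := by
      ext v
      rw [MM_mulVec]
      simp
    rw [h2]
    simp [dotProduct, Finset.mul_sum]
  have hcard : (Fintype.card V : ℝ) ≠ 0 := by
    have : Nonempty V := ⟨w⟩
    exact_mod_cast Fintype.card_ne_zero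
  have hfsum : ∑ v, f v = 0 := by
    have := hMsum f
    rw [hMf, hbsum] at this
    rcases mul_eq_zero.1 this.symm with h | h
    · exact absurd h hcard
    · exact h
  -- the constant diagonal
  have hdiag : KK G w w = KK G z z := by
    obtain ⟨φ, hφ⟩ := htr w z
    have := KK_aut G hG φ w w
    rw [hφ] at this
    exact this.symm
  have hfw : f w = KK G w w - KK G w z := hfv w
  have hfz : f z = -(KK G w w - KK G w z) := by
    rw [hfv z, KK_symm G z w, hdiag]; ring
  set R := KK G w w - KK G w z with hR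
  have hfne : f ≠ 0 := by
    intro h0
    rw [h0, Matrix.mulVec_zero] at hMf
    have := congrFun hMf w
    change (0 : ℝ) = ew w - ez w at this
    rw [eww, ez' w hwz] at this
    norm_num at this
  have hRpos : 0 < R := by
    have h1 : f ⬝ᵥ (MM G *ᵥ f) = 2 * R := by
      rw [hMf]
      change f ⬝ᵥ (ew - ez) = 2 * R
      rw [dotProduct_sub]
      change f ⬝ᵥ (Pi.single w (1 : ℝ)) - f ⬝ᵥ (Pi.single z (1 : ℝ)) = 2 * R
      rw [dotProduct_single, dotProduct_single, hfw, hfz]
      ring
    have h2 := MM_quad_nonneg G f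
    have h3 : f ⬝ᵥ (MM G *ᵥ f) ≠ 0 := fun h => hfne (MM_quad_eq_zero G hG f h)
    have h4 : 0 < f ⬝ᵥ (MM G *ᵥ f) := lt_of_le_of_ne h2 (Ne.symm h3)
    rw [h1] at h4
    linarith
  -- the harmonic function
  let h : V → ℝ := fun v => 1 / 2 + f v / (2 * R)
  have hw1 : h w = 1 := by
    change 1 / 2 + f w / (2 * R) = 1
    rw [hfw]; field_simp; norm_num
  have hz0 : h z = 0 := by
    change 1 / 2 + f z / (2 * R) = 0
    rw [hfz]; field_simp; norm_num
  have hharm : ∀ v, v ≠ w → v ≠ z →
      ∑ u ∈ G.neighborFinset v, h u = G.degree v * h v := by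
    intro v hvw hvz
    have h1 := congrFun hMf v
    rw [MM_mulVec, hfsum, add_zero] at h1
    change _ = ew v - ez v at h1
    rw [ew' v hvw, ez' v hvz, sub_zero] at h1
    have h2 : ∑ u ∈ G.neighborFinset v, f u = G.degree v * f v := by linarith
    change ∑ u ∈ G.neighborFinset v, (1 / 2 + f u / (2 * R)) =
      G.degree v * (1 / 2 + f v / (2 * R))
    have h3 : ∑ u ∈ G.neighborFinset v, f u / (2 * R) =
        (∑ u ∈ G.neighborFinset v, f u) / (2 * R) := (Finset.sum_div _ _ _).symm
    rw [Finset.sum_add_distrib, h3, h2, Finset.sum_const,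
      SimpleGraph.card_neighborFinset_eq_degree, nsmul_eq_mul]
    ring
  have hsum : ∑ v, h v = (Fintype.card V : ℝ) / 2 := by
    change ∑ v, (1 / 2 + f v / (2 * R)) = _
    have h0 : ∑ v, f v / (2 * R) = (∑ v, f v) / (2 * R) := (Finset.sum_div _ _ _).symm
    rw [Finset.sum_add_distrib, h0, hfsum]
    simp
    ring
  -- maximum principle
  have hmax : ∀ g : V → ℝ, (∀ v, v ≠ w → v ≠ z →
      ∑ u ∈ G.neighborFinset v, g u = G.degree v * g v) →
      ∀ v, g v ≤ max (g w) (g z) := by
    intro g hg v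
    by_contra hlt
    push Not at hlt
    obtain ⟨m, -, hm⟩ := Finset.exists_max_image (Finset.univ : Finset V) g ⟨w, Finset.mem_univ w⟩
    have hmgt : max (g w) (g z) < g m := lt_of_lt_of_le hlt (hm v (Finset.mem_univ v))
    have hprop : ∀ a, g a = g m → ∀ u, G.Adj a u → g u = g m := by
      intro a ha u hau
      have haw : a ≠ w := by
        rintro rfl
        rw [← ha] at hmgt
        exact absurd (le_max_left (g a) (g z)) (not_le.2 hmgt)
      have haz : a ≠ z := by
        rintro rfl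
        rw [← ha] at hmgt
        exact absurd (le_max_right (g w) (g a)) (not_le.2 hmgt)
      have h1 := hg a haw haz
      have h2 : ∑ u ∈ G.neighborFinset a, (g m - g u) = 0 := by
        rw [Finset.sum_sub_distrib, h1, Finset.sum_const,
          SimpleGraph.card_neighborFinset_eq_degree, nsmul_eq_mul, ha]
        ring
      rw [Finset.sum_eq_zero_iff_of_nonneg (fun u _ => sub_nonneg.2 (hm u (Finset.mem_univ u)))]
        at h2
      have := h2 u ((SimpleGraph.mem_neighborFinset _ _ _).2 hau)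
      linarith
    have hall : ∀ a, g a = g m := by
      intro a
      obtain ⟨p⟩ := hG.preconnected m a
      have key : ∀ (x y : V) (_ : G.Walk x y), g x = g m → g y = g m := by
        intro x y p
        induction p with
        | nil => exact fun h => h
        | cons hadj _ ih => exact fun hx => ih (hprop _ hx _ hadj)
      exact key m a p rfl
    have := hall w
    rw [← this] at hmgt
    exact absurd (le_max_left (g w) (g z)) (not_le.2 hmgt)
  refine ⟨h, hw1, hz0, ?_, ?_, hharm, hsum⟩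
  · intro v
    have h1 := hmax (fun u => - h u) (by
      intro a ha hb
      rw [Finset.sum_neg_distrib, hharm a ha hb]; ring) v
    simp only [hw1, hz0] at h1
    have : max (-1 : ℝ) (-0) = 0 := by norm_num
    rw [this] at h1
    linarith
  · intro v
    have h1 := hmax h hharm v
    rw [hw1, hz0] at h1
    simpa using h1

end Pool.Agent.IDLA
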