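import Mathlib
import Pool.Agent.IDLA.Defs
import Pool.Agent.IDLA.Harmonic
import Pool.Agent.IDLA.Exit

/-!
# The exponential supermartingale for internal DLA
-/

namespace Pool.Agent.IDLA

open Finset MeasureTheory

set_option linter.unusedSectionVars false

variable {V : Type*} [Fintype V] [DecidableEq V]

section psi

variable (G : SimpleGraph V) (hG : G.Connected) (z : V)

include hG in
theorem exists_psi : ∃ (ψ : V → ℝ) (c : ℝ), 0 < c ∧ (∀ v, 0 ≤ ψ v) ∧ (∀ v, ψ v ≤ 1) ∧
    ∀ v, v ≠ z → ψ v + c ≤ ∑ u, walkProb G z v u * ψ u := by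
  classical
  have hne : Nonempty V := ⟨z⟩
  have hn : (0 : ℝ) < Fintype.card V := by exact_mod_cast Fintype.card_pos
  have hn1 : (1 : ℝ) ≤ Fintype.card V := by exact_mod_cast Fintype.card_pos
  set n : ℝ := (Fintype.card V : ℝ) with hnn
  set r : ℝ := 1 / (2 * n) with hr
  have hr0 : 0 < r := by positivity
  have hr1 : r ≤ 1 := by
    rw [hr, div_le_one (by positivity)]; linarith
  let ψ : V → ℝ := fun v => r ^ (G.dist v z)
  have hψpos : ∀ v, 0 < ψ v := fun v => pow_pos hr0 _
  obtain ⟨m, hm⟩ := Finite.exists_min ψ
  refine ⟨ψ, ψ m, hψpos m, fun v => (hψpos v).le, fun v => pow_le_one₀ hr0.le hr1, ?_⟩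
  intro v hv
  -- a neighbour closer to z
  obtain ⟨p, hp⟩ := (hG.preconnected v z).exists_walk_length_eq_dist
  cases p with
  | nil => exact absurd rfl hv
  | @cons _ u _ hadj q =>
    have hd : G.dist u z + 1 ≤ G.dist v z := by
      rw [← hp, SimpleGraph.Walk.length_cons]
      have := SimpleGraph.dist_le q
      omega
    have h1 : walkProb G z v u * ψ u ≤ ∑ u, walkProb G z v u * ψ u :=
      Finset.single_le_sum (f := fun u => walkProb G z v u * ψ u)
        (fun u _ => mul_nonneg (walkProb_nonneg G z v u) (hψpos u).le) (Finset.mem_univ u)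
    have h2 : 1 / n ≤ walkProb G z v u := by
      unfold walkProb
      rw [if_neg hv, if_pos hadj]
      have hfin : (G.neighborSet v).Finite := Set.toFinite _
      have hpos : 0 < (G.neighborSet v).ncard := by
        rw [Set.ncard_pos hfin]
        exact ⟨u, hadj⟩
      have hle : (G.neighborSet v).ncard ≤ Fintype.card V := by
        rw [← Nat.card_eq_fintype_card, ← Set.ncard_univ]
        exact Set.ncard_le_ncard (Set.subset_univ _) Set.finite_univ
      apply one_div_le_one_div_of_le
      · exact_mod_cast hpos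
      · rw [hnn]; exact_mod_cast hle
    have h3 : ψ v ≤ r * ψ u := by
      change r ^ (G.dist v z) ≤ r * r ^ (G.dist u z)
      rw [← pow_succ']
      exact pow_le_pow_of_le_one hr0.le hr1 hd
    have h4 : ψ m ≤ ψ v := hm v
    have h5 : (1 / n) * ψ u ≤ walkProb G z v u * ψ u :=
      mul_le_mul_of_nonneg_right h2 (hψpos u).le
    have h6 : 2 * (r * ψ u) = (1 / n) * ψ u := by
      rw [hr]; field_simp
    linarith

include hG in
/-- Uniform bound on the tail of exit times. -/
theorem exists_tail_bound : ∃ c : ℝ, 0 < c ∧ ∀ (σ : Finset V), z ∉ σ → ∀ (m : ℕ) (v : V),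
    c * m * tail G z σ m v ≤ 1 := by
  obtain ⟨ψ, c, hc, h0, h1, h2⟩ := exists_psi G hG z
  refine ⟨c, hc, fun σ hσ m v => ?_⟩
  have h3 := tail_le G hG z σ h0 h1 (c := c) (fun v hv => h2 v (fun h => hσ (h ▸ hv))) m v
  have h4 : (m : ℝ) * tail G z σ m v ≤ ∑ k ∈ range m, tail G z σ k v := by
    have h5 : ∑ k ∈ range m, tail G z σ m v ≤ ∑ k ∈ range m, tail G z σ k v := by
      apply Finset.sum_le_sum
      intro k hk
      exact tail_antitone G hG z σ v (Finset.mem_range.1 hk).le
    rwa [Finset.sum_const, Finset.card_range, nsmul_eq_mul] at h5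
  calc c * m * tail G z σ m v = c * (m * tail G z σ m v) := by ring
    _ ≤ c * ∑ k ∈ range m, tail G z σ k v := mul_le_mul_of_nonneg_left h4 hc.le
    _ ≤ 1 := h3

end psi

/-! ### Truncated process -/

/-- Add a particle, truncated version. -/
def addT (z : V) (m : ℕ) (σ : Finset V) (b : Fin (m + 1) → V) : Finset V :=
  if st σ m b ∈ σ ∨ st σ m b = z then σ else insert (st σ m b) σ

/-- Truncated process. -/
def occT (z : V) (m : ℕ) : (T : ℕ) → (Fin T → Fin (m + 1) → V) → Finset V
  | 0, _ => ∅
  | T + 1, a => addT z m (occT z m T (fun t => a t.castSucc)) (a (Fin.last T))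

theorem occT_z (z : V) (m T : ℕ) (a : Fin T → Fin (m + 1) → V) : z ∉ occT z m T a := by
  induction T with
  | zero => simp [occT]
  | succ T ih =>
    unfold occT addT
    split_ifs with h
    · exact ih _
    · push Not at h
      rw [Finset.mem_insert, not_or]
      exact ⟨fun hz => h.2 hz.symm, ih _⟩

/-- The functional. -/
noncomputable def Phi (lam : ℝ) (h : V → ℝ) (w : V) (σ : Finset V) : ℝ :=
  if w ∈ σ then 0 else Real.exp (-lam * ∑ y ∈ σ, h y)

theorem Phi_nonneg (lam : ℝ) (h : V → ℝ) (w : V) (σ : Finset V) : 0 ≤ Phi lam h w σ := by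
  unfold Phi
  split_ifs
  · exact le_refl _
  · exact (Real.exp_pos _).le

theorem sum_snoc {P : Type*} [Fintype P] {T : ℕ} (F : (Fin (T + 1) → P) → ℝ) :
    ∑ a : Fin (T + 1) → P, F a = ∑ a : Fin T → P, ∑ b : P, F (Fin.snoc a b) := by
  rw [Finset.sum_comm, ← Fintype.sum_prod_type',
    ← (Fin.snocEquiv (fun _ : Fin (T + 1) => P)).sum_comp]
  rfl

section step

variable (G : SimpleGraph V) (hG : G.Connected) (z w : V) (hwz : w ≠ z)
  (h : V → ℝ) (hw : h w = 1) (hz : h z = 0) (h0 : ∀ v, 0 ≤ h v) (h1 : ∀ v, h v ≤ 1)
  (hh : ∀ v, v ≠ w → v ≠ z → ∑ u, walkProb G z v u * h u = h v)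
  (hV : 2 ≤ Fintype.card V) (lam : ℝ) (hlam : 0 ≤ lam)

include hG hwz hz h0 h1 hh hV hlam in
theorem step_bound (m : ℕ) (τ : ℝ) (hτ : ∀ σ : Finset V, z ∉ σ → ∀ v, tail G z σ m v ≤ τ)
    (σ : Finset V) (hσ : z ∉ σ) :
    ∑ b : Fin (m + 1) → V, pathProb G z b * Phi lam h w (addT z m σ b) ≤
      (1 - (1 - Real.exp (-lam)) * (∑ v, startProb z v * h v) + τ) * Phi lam h w σ := by
  by_cases hwσ : w ∈ σ
  · have : Phi lam h w σ = 0 := by unfold Phi; rw [if_pos hwσ]
    rw [this, mul_zero]
    apply le_of_eq
    apply Finset.sum_eq_zero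
    intro b _
    have hmem : w ∈ addT z m σ b := by
      unfold addT
      split_ifs with ha
      · exact hwσ
      · exact Finset.mem_insert_of_mem hwσ
    have : Phi lam h w (addT z m σ b) = 0 := by
      unfold Phi
      rw [if_pos hmem]
    rw [this, mul_zero]
  · -- the factor
    let g : V → ℝ := fun y => if y ∈ σ then 1 else Real.exp (-lam * h y)
    have hfac : ∀ b : Fin (m + 1) → V,
        Phi lam h w (addT z m σ b) ≤ Phi lam h w σ * g (st σ m b) := by
      intro b
      have hP : Phi lam h w σ = Real.exp (-lam * ∑ y ∈ σ, h y) := by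
        unfold Phi; rw [if_neg hwσ]
      unfold addT
      by_cases h2 : st σ m b ∈ σ
      · rw [if_pos (Or.inl h2)]
        have : g (st σ m b) = 1 := by
          change (if st σ m b ∈ σ then (1 : ℝ) else _) = 1
          rw [if_pos h2]
        rw [this, mul_one]
      · by_cases h3 : st σ m b = z
        · rw [if_pos (Or.inr h3)]
          have : g (st σ m b) = 1 := by
            change (if st σ m b ∈ σ then (1 : ℝ) else Real.exp (-lam * h (st σ m b))) = 1
            rw [if_neg h2, h3, hz, mul_zero, Real.exp_zero]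
          rw [this, mul_one]
        · rw [if_neg (by push Not; exact ⟨h2, h3⟩)]
          have hg : g (st σ m b) = Real.exp (-lam * h (st σ m b)) := by
            change (if st σ m b ∈ σ then (1 : ℝ) else Real.exp (-lam * h (st σ m b))) = _
            rw [if_neg h2]
          rw [hP, hg, ← Real.exp_add]
          unfold Phi
          split_ifs with h4
          · exact (Real.exp_pos _).le
          · rw [Finset.sum_insert h2]
            apply le_of_eq
            congr 1
            ring
    have hg : ∀ y, g y ≤ 1 - (1 - Real.exp (-lam)) * h y + ind σ y := by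
      intro y
      change (if y ∈ σ then (1 : ℝ) else Real.exp (-lam * h y)) ≤ _
      have hel : Real.exp (-lam) ≤ 1 := by
        rw [Real.exp_le_one_iff]; linarith
      by_cases hy : y ∈ σ
      · rw [if_pos hy]
        unfold ind
        rw [if_pos hy]
        have : (1 - Real.exp (-lam)) * h y ≤ 1 := by
          calc (1 - Real.exp (-lam)) * h y ≤ 1 * 1 := by
                apply mul_le_mul _ (h1 y) (h0 y) (by norm_num)
                have := Real.exp_pos (-lam)
                linarith
            _ = 1 := by norm_num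
        linarith
      · rw [if_neg hy]
        unfold ind
        rw [if_neg hy, add_zero]
        have ha : 0 ≤ 1 - h y := by linarith [h1 y]
        have hab : 1 - h y + h y = 1 := by ring
        have hconv := convexOn_exp.2 (Set.mem_univ (0 : ℝ)) (Set.mem_univ (-lam)) ha (h0 y) hab
        simp only [smul_eq_mul, mul_zero, zero_add, Real.exp_zero, mul_one] at hconv
        have e1 : h y * -lam = -lam * h y := by ring
        rw [e1] at hconv
        linarith
    calc ∑ b : Fin (m + 1) → V, pathProb G z b * Phi lam h w (addT z m σ b)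
        ≤ ∑ b : Fin (m + 1) → V, pathProb G z b * (Phi lam h w σ * g (st σ m b)) := by
          apply Finset.sum_le_sum
          intro b _
          exact mul_le_mul_of_nonneg_left (hfac b) (pathProb_nonneg hV G z b)
      _ = Phi lam h w σ * ∑ b : Fin (m + 1) → V, pathProb G z b * g (st σ m b) := by
          rw [Finset.mul_sum]
          apply Finset.sum_congr rfl
          intro b _
          ring
      _ = Phi lam h w σ * ∑ v, startProb z v * EE G z σ m g v := by
          rw [pathProb_sum_st]
      _ ≤ Phi lam h w σ * (1 - (1 - Real.exp (-lam)) * (∑ v, startProb z v * h v) + τ) := by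
          apply mul_le_mul_of_nonneg_left _ (Phi_nonneg _ _ _ _)
          have hE : ∀ v, EE G z σ m g v ≤ 1 - (1 - Real.exp (-lam)) * h v + τ := by
            intro v
            have e1 := EE_mono G hG z σ (m := m) hg v
            have e2 : EE G z σ m (fun y => 1 - (1 - Real.exp (-lam)) * h y + ind σ y) v =
                1 - (1 - Real.exp (-lam)) * h v + tail G z σ m v := by
              rw [EE_add G z σ (fun y => 1 - (1 - Real.exp (-lam)) * h y) (ind σ) v]
              congr 1
              have e3 : (fun y => 1 - (1 - Real.exp (-lam)) * h y) =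
                  fun y => (1 : ℝ) + (-(1 - Real.exp (-lam))) * h y := by
                ext y; ring
              rw [e3, EE_add G z σ (fun _ => (1 : ℝ)) (fun y => (-(1 - Real.exp (-lam))) * h y) v,
                EE_const G hG, EE_smul,
                EE_harm G hG z σ (fun v hv => hh v (fun e => hwσ (e ▸ hv)) (fun e => hσ (e ▸ hv)))]
              ring
            rw [e2] at e1
            have := hτ σ hσ v
            linarith
          calc ∑ v, startProb z v * EE G z σ m g v
              ≤ ∑ v, startProb z v * (1 - (1 - Real.exp (-lam)) * h v + τ) := by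
                apply Finset.sum_le_sum
                intro v _
                exact mul_le_mul_of_nonneg_left (hE v) (startProb_nonneg hV z v)
            _ = (∑ v, startProb z v) * (1 + τ) -
                (1 - Real.exp (-lam)) * (∑ v, startProb z v * h v) := by
                rw [Finset.sum_mul, Finset.mul_sum, ← Finset.sum_sub_distrib]
                apply Finset.sum_congr rfl
                intro v _
                ring
            _ = 1 - (1 - Real.exp (-lam)) * (∑ v, startProb z v * h v) + τ := by
                rw [startProb_sum hV]; ring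
      _ = _ := by ring

include hG hwz hz h0 h1 hh hV hlam in
theorem FF_bound (m : ℕ) (τ : ℝ)
    (hτ : ∀ σ : Finset V, z ∉ σ → ∀ v, tail G z σ m v ≤ τ)
    (hρ : 0 ≤ 1 - (1 - Real.exp (-lam)) * (∑ v, startProb z v * h v) + τ) (T : ℕ) :
    ∑ a : Fin T → Fin (m + 1) → V, (∏ t, pathProb G z (a t)) * Phi lam h w (occT z m T a) ≤
      (1 - (1 - Real.exp (-lam)) * (∑ v, startProb z v * h v) + τ) ^ T := by
  induction T with
  | zero =>
    rw [Fintype.sum_unique]
    simp [occT, Phi]
  | succ T ih =>
    rw [sum_snoc]
    set ρ := 1 - (1 - Real.exp (-lam)) * (∑ v, startProb z v * h v) + τ with hρd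
    have e1 : ∀ (a : Fin T → Fin (m + 1) → V),
        ∑ b : Fin (m + 1) → V, (∏ t, pathProb G z ((Fin.snoc a b : Fin (T + 1) → Fin (m + 1) → V) t))
          * Phi lam h w (occT z m (T + 1) (Fin.snoc a b : Fin (T + 1) → Fin (m + 1) → V)) ≤
        ρ * ((∏ t, pathProb G z (a t)) * Phi lam h w (occT z m T a)) := by
      intro a
      have e2 : ∀ b : Fin (m + 1) → V,
          (∏ t, pathProb G z ((Fin.snoc a b : Fin (T + 1) → Fin (m + 1) → V) t))
          * Phi lam h w (occT z m (T + 1) (Fin.snoc a b : Fin (T + 1) → Fin (m + 1) → V)) =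
          (∏ t, pathProb G z (a t)) *
            (pathProb G z b * Phi lam h w (addT z m (occT z m T a) b)) := by
        intro b
        rw [Fin.prod_univ_castSucc]
        simp only [Fin.snoc_castSucc, Fin.snoc_last, occT]
        ring
      simp only [e2]
      rw [← Finset.mul_sum]
      have e3 := step_bound G hG z w hwz h hz h0 h1 hh hV lam hlam m τ hτ (occT z m T a)
        (occT_z z m T a)
      have e4 : 0 ≤ ∏ t, pathProb G z (a t) :=
        Finset.prod_nonneg (fun t _ => pathProb_nonneg hV G z (a t))
      calc _ ≤ (∏ t, pathProb G z (a t)) * (ρ * Phi lam h w (occT z m T a)) :=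
            mul_le_mul_of_nonneg_left e3 e4
        _ = _ := by ring
    calc _ ≤ ∑ a : Fin T → Fin (m + 1) → V,
          ρ * ((∏ t, pathProb G z (a t)) * Phi lam h w (occT z m T a)) :=
          Finset.sum_le_sum (fun a _ => e1 a)
      _ = ρ * ∑ a : Fin T → Fin (m + 1) → V,
          ((∏ t, pathProb G z (a t)) * Phi lam h w (occT z m T a)) := by rw [Finset.mul_sum]
      _ ≤ ρ * ρ ^ T := mul_le_mul_of_nonneg_left ih hρ
      _ = ρ ^ (T + 1) := by rw [pow_succ']

end step

end Pool.Agent.IDLA
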