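import Mathlib
import Pool.Agent.IDLA.Main

/-!
# From the finite-dimensional distributions to the filling time
-/

namespace Pool.Agent.IDLA

open Finset MeasureTheory Filter Topology

set_option linter.unusedSectionVars false

variable {V : Type*} [Fintype V] [DecidableEq V]

section decomposition

variable {G : SimpleGraph V} {z : V} {Ω : Type*} [MeasurableSpace Ω] {μ : Measure Ω}
  {X : ℕ → ℕ → Ω → V}

open Classical in
theorem IsDriving.decomp [IsFiniteMeasure μ] (hX : IsDriving G z μ X) (T m : ℕ)
    (A : (Fin T → Fin (m + 1) → V) → Prop) :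
    μ.real {ω | A (fun t k => X t k ω)} =
      ∑ a : Fin T → Fin (m + 1) → V, if A a then ∏ t, pathProb G z (a t) else 0 := by
  have hset : {ω | A (fun t k => X t k ω)} =
      ⋃ a ∈ Finset.univ.filter A, {ω | ∀ (t : Fin T) (k : Fin (m + 1)), X t k ω = a t k} := by
    ext ω
    simp only [Set.mem_iUnion, Finset.mem_filter, Finset.mem_univ, true_and]
    constructor
    · intro h
      exact ⟨fun t k => X t k ω, h, fun t k => rfl⟩
    · rintro ⟨a, ha, h⟩
      have : (fun (t : Fin T) (k : Fin (m + 1)) => X t k ω) = a := by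
        funext t k
        exact h t k
      change A (fun t k => X t k ω)
      rw [this]
      exact ha
  rw [hset, measureReal_biUnion_finset]
  · rw [Finset.sum_filter]
    apply Finset.sum_congr rfl
    intro a _
    rw [hX.law T m a]
  · intro a _ b _ hab
    rw [Function.onFun, Set.disjoint_left]
    intro ω h1 h2
    apply hab
    funext t k
    rw [← h1 t k, h2 t k]
  · intro a _
    have : {ω | ∀ (t : Fin T) (k : Fin (m + 1)), X t k ω = a t k} =
        ⋂ (t : Fin T), ⋂ (k : Fin (m + 1)), {ω | X t k ω = a t k} := by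
      ext ω; simp
    rw [this]
    exact MeasurableSet.iInter (fun t => MeasurableSet.iInter (fun k => hX.measurable t k _))

theorem st_eq_apply (σ : Finset V) (m : ℕ) (b : Fin (m + 1) → V) : ∃ k, st σ m b = b k := by
  induction m with
  | zero => exact ⟨0, rfl⟩
  | succ m ih =>
    unfold st
    split_ifs
    · obtain ⟨k, hk⟩ := ih (fun k => b k.succ)
      exact ⟨k.succ, hk⟩
    · exact ⟨0, rfl⟩

theorem st_of_first (σ : Finset V) (m : ℕ) (x : ℕ → V) (k₀ : ℕ) (hk : k₀ ≤ m)
    (hlt : ∀ j < k₀, x j ∈ σ) (hk₀ : x k₀ ∉ σ) : st σ m (fun k => x k) = x k₀ := by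
  induction m generalizing x k₀ with
  | zero =>
    have : k₀ = 0 := by omega
    subst this
    rfl
  | succ m ih =>
    unfold st
    by_cases h0 : k₀ = 0
    · subst h0
      have : x ((0 : Fin (m + 1 + 1)) : ℕ) ∉ σ := hk₀
      rw [if_neg this]
      rfl
    · have h1 : x ((0 : Fin (m + 1 + 1)) : ℕ) ∈ σ := hlt 0 (by omega)
      rw [if_pos h1]
      have h2 := ih (fun k => x (k + 1)) (k₀ - 1) (by omega) (fun j hj => hlt (j + 1) (by omega))
        (by
          have : k₀ - 1 + 1 = k₀ := by omega
          simp only [this]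
          exact hk₀)
      have h3 : k₀ - 1 + 1 = k₀ := by omega
      simp only [h3] at h2
      exact h2

theorem addT_eq_addParticle (m : ℕ) (σ : Finset V) (hσ : z ∉ σ) (x : ℕ → V)
    (hx : ∃ k ≤ m, x k = z) : addParticle z σ x = addT z m σ (fun k => x k) := by
  classical
  obtain ⟨k, hk, hkz⟩ := hx
  have hex : ∃ k, x k ∉ σ := ⟨k, by rw [hkz]; exact hσ⟩
  have hadd : addParticle z σ x =
      if x (Nat.find hex) = z then σ else insert (x (Nat.find hex)) σ := by
    unfold addParticle
    rw [dif_pos hex]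
  rw [hadd]
  generalize hk₀ : Nat.find hex = k₀
  have h1 : x k₀ ∉ σ := by rw [← hk₀]; exact Nat.find_spec hex
  have h2 : ∀ j < k₀, x j ∈ σ := by
    intro j hj
    rw [← hk₀] at hj
    have := Nat.find_min hex hj
    push Not at this
    exact this
  have h3 : k₀ ≤ m := by
    have : k₀ ≤ k := by rw [← hk₀]; exact Nat.find_min' hex (by rw [hkz]; exact hσ)
    omega
  have h4 := st_of_first σ m x k₀ h3 h2 h1
  unfold addT
  rw [h4]
  by_cases h5 : x k₀ = z
  · rw [if_pos h5, if_pos (Or.inr h5)]
  · rw [if_neg h5, if_neg (by push Not; exact ⟨h1, h5⟩)]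

theorem addParticle_z (σ : Finset V) (hσ : z ∉ σ) (x : ℕ → V) : z ∉ addParticle z σ x := by
  classical
  unfold addParticle
  split_ifs with h1 h2
  · exact hσ
  · rw [Finset.mem_insert, not_or]
    exact ⟨fun h => h2 h.symm, hσ⟩
  · exact hσ

theorem occupied_z (x : ℕ → ℕ → V) (T : ℕ) : z ∉ occupied z x T := by
  induction T with
  | zero => simp [occupied]
  | succ T ih => exact addParticle_z _ ih _

theorem subset_addParticle (σ : Finset V) (x : ℕ → V) : σ ⊆ addParticle z σ x := by
  classical
  unfold addParticle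
  split_ifs
  · exact Finset.Subset.refl _
  · exact Finset.subset_insert _ _
  · exact Finset.Subset.refl _

theorem card_addParticle_le (σ : Finset V) (x : ℕ → V) :
    (addParticle z σ x).card ≤ σ.card + 1 := by
  classical
  unfold addParticle
  split_ifs
  · omega
  · exact Finset.card_insert_le _ _
  · omega

theorem occupied_card (x : ℕ → ℕ → V) (T : ℕ) : (occupied z x T).card ≤ T := by
  induction T with
  | zero => simp [occupied]
  | succ T ih =>
    have := card_addParticle_le (z := z) (occupied z x T) (x T)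
    change (addParticle z (occupied z x T) (x T)).card ≤ T + 1
    omega

theorem occupied_mono (x : ℕ → ℕ → V) : Monotone (occupied z x) :=
  monotone_nat_of_le_succ (fun T => subset_addParticle (z := z) (occupied z x T) (x T))

theorem occupied_eq_occT (m T : ℕ) (x : ℕ → ℕ → V) (hx : ∀ t < T, ∃ k ≤ m, x t k = z) :
    occupied z x T = occT z m T (fun t k => x t k) := by
  induction T with
  | zero => rfl
  | succ T ih =>
    have h1 := ih (fun t ht => hx t (by omega))
    change addParticle z (occupied z x T) (x T) = _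
    rw [addT_eq_addParticle m _ (occupied_z x T) (x T) (hx T (by omega)), h1]
    rfl

/-- Probability that the `t`-th walk has not reached the sink within `m` steps. -/
theorem IsDriving.late [IsFiniteMeasure μ] (hX : IsDriving G z μ X)
    (hV : 2 ≤ Fintype.card V) {c : ℝ} (hc : 0 < c)
    (hct : ∀ (σ : Finset V), z ∉ σ → ∀ (m : ℕ) (v : V), c * m * tail G z σ m v ≤ 1)
    (t m : ℕ) (hm : 0 < m) :
    μ.real {ω | ∀ k ≤ m, X t k ω ≠ z} ≤ 1 / (c * m) := by
  classical
  let A : (Fin (t + 1) → Fin (m + 1) → V) → Prop := fun a => ∀ k, a (Fin.last t) k ≠ z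
  have h1 := hX.decomp (t + 1) m A
  have hset : {ω | ∀ k ≤ m, X t k ω ≠ z} = {ω | A (fun t k => X t k ω)} := by
    ext ω
    constructor
    · intro h k
      exact h k (by omega)
    · intro h k hk
      exact h ⟨k, by omega⟩
  rw [hset, h1, sum_snoc]
  have htot : ∑ a : Fin t → Fin (m + 1) → V, ∏ s, pathProb G z (a s) = 1 := by
    have h2 := hX.decomp t m (fun _ => True)
    simp only [if_true] at h2
    rw [← h2]
    have h3 := hX.law 0 m (fun s => s.elim0)
    simp only [Finset.univ_eq_empty, Finset.prod_empty] at h3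
    rw [← h3]
    congr 1
    ext ω
    simp
  have hone : ∀ b : Fin (m + 1) → V, (if ∀ k, b k ≠ z then pathProb G z b else 0) ≤
      pathProb G z b * ind (univ.erase z) (st (univ.erase z) m b) := by
    intro b
    split_ifs with hb
    · have : ind (univ.erase z) (st (univ.erase z) m b) = 1 := by
        unfold ind
        obtain ⟨k, hk⟩ := st_eq_apply (univ.erase z) m b
        rw [hk, if_pos]
        rw [Finset.mem_erase]
        exact ⟨hb k, Finset.mem_univ _⟩
      rw [this, mul_one]
    · apply mul_nonneg (pathProb_nonneg hV G z b)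
      unfold ind
      split_ifs <;> norm_num
  have hpath : ∑ b : Fin (m + 1) → V, (if ∀ k, b k ≠ z then pathProb G z b else 0) ≤
      1 / (c * m) := by
    calc _ ≤ ∑ b : Fin (m + 1) → V,
          pathProb G z b * ind (univ.erase z) (st (univ.erase z) m b) :=
          Finset.sum_le_sum (fun b _ => hone b)
      _ = ∑ v, startProb z v * tail G z (univ.erase z) m v := by
          rw [pathProb_sum_st]; rfl
      _ ≤ ∑ v, startProb z v * (1 / (c * m)) := by
          apply Finset.sum_le_sum
          intro v _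
          apply mul_le_mul_of_nonneg_left _ (startProb_nonneg hV z v)
          have h5 := hct (univ.erase z) (Finset.notMem_erase z univ) m v
          have hm' : (0 : ℝ) < m := by exact_mod_cast hm
          rw [le_div_iff₀ (by positivity)]
          linarith
      _ = 1 / (c * m) := by rw [← Finset.sum_mul, startProb_sum hV, one_mul]
  have e2 : ∀ (a : Fin t → Fin (m + 1) → V) (b : Fin (m + 1) → V),
      (if A (Fin.snoc a b : Fin (t + 1) → Fin (m + 1) → V) then
        ∏ s, pathProb G z ((Fin.snoc a b : Fin (t + 1) → Fin (m + 1) → V) s) else 0) =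
      (∏ s, pathProb G z (a s)) * (if ∀ k, b k ≠ z then pathProb G z b else 0) := by
    intro a b
    have hA : A (Fin.snoc a b : Fin (t + 1) → Fin (m + 1) → V) ↔ ∀ k, b k ≠ z := by
      change (∀ k, (Fin.snoc a b : Fin (t + 1) → Fin (m + 1) → V) (Fin.last t) k ≠ z) ↔ _
      rw [Fin.snoc_last]
    simp only [hA]
    rw [Fin.prod_univ_castSucc]
    simp only [Fin.snoc_castSucc, Fin.snoc_last]
    split_ifs <;> ring
  refine le_trans (le_of_eq ?_) hpath
  trans (∑ a : Fin t → Fin (m + 1) → V, (∏ s, pathProb G z (a s)) *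
        ∑ b : Fin (m + 1) → V, (if ∀ k, b k ≠ z then pathProb G z b else 0))
  · apply Finset.sum_congr rfl
    intro a _
    rw [Finset.mul_sum]
    apply Finset.sum_congr rfl
    intro b _
    convert e2 a b
  · rw [← Finset.sum_mul, htot, one_mul]

/-- Probability that `w` is not occupied by the truncated process. -/
theorem IsDriving.trunc [IsFiniteMeasure μ] (hX : IsDriving G z μ X) (hG : G.Connected)
    (hV : 2 ≤ Fintype.card V) {w : V} (hwz : w ≠ z) {h : V → ℝ} (hz : h z = 0)
    (h0 : ∀ v, 0 ≤ h v) (h1 : ∀ v, h v ≤ 1)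
    (hh : ∀ v, v ≠ w → v ≠ z → ∑ u, walkProb G z v u * h u = h v)
    (lam : ℝ) (hlam : 0 ≤ lam) (m : ℕ) (τ : ℝ) 
    (hτ : ∀ σ : Finset V, z ∉ σ → ∀ v, tail G z σ m v ≤ τ)
    (hρ : 0 ≤ 1 - (1 - Real.exp (-lam)) * (∑ v, startProb z v * h v) + τ) (T : ℕ) :
    μ.real {ω | w ∉ occT z m T (fun t k => X t k ω)} ≤
      Real.exp (lam * ∑ v, h v) *
        (1 - (1 - Real.exp (-lam)) * (∑ v, startProb z v * h v) + τ) ^ T := by
  classical
  have e1 := hX.decomp T m (fun a => w ∉ occT z m T a)
  rw [e1]
  have e2 := FF_bound G hG z w hwz h hz h0 h1 hh hV lam hlam m τ hτ hρ T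
  refine le_trans ?_ (mul_le_mul_of_nonneg_left e2 (Real.exp_pos _).le)
  rw [Finset.mul_sum]
  apply Finset.sum_le_sum
  intro a _
  have hp : 0 ≤ ∏ t, pathProb G z (a t) :=
    Finset.prod_nonneg (fun t _ => pathProb_nonneg hV G z (a t))
  by_cases hw : w ∉ occT z m T a
  · rw [if_pos hw]
    unfold Phi
    rw [if_neg hw]
    have h3 : 1 ≤ Real.exp (lam * ∑ v, h v) * Real.exp (-lam * ∑ y ∈ occT z m T a, h y) := by
      rw [← Real.exp_add]
      rw [Real.one_le_exp_iff]
      have : ∑ y ∈ occT z m T a, h y ≤ ∑ v, h v :=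
        Finset.sum_le_sum_of_subset_of_nonneg (Finset.subset_univ _) (fun v _ _ => h0 v)
      nlinarith
    calc ∏ t, pathProb G z (a t) = (∏ t, pathProb G z (a t)) * 1 := by ring
      _ ≤ (∏ t, pathProb G z (a t)) *
          (Real.exp (lam * ∑ v, h v) * Real.exp (-lam * ∑ y ∈ occT z m T a, h y)) :=
          mul_le_mul_of_nonneg_left h3 hp
      _ = _ := by ring
  · rw [if_neg hw]
    apply mul_nonneg (Real.exp_pos _).le
    exact mul_nonneg hp (Phi_nonneg _ _ _ _)

/-- Probability that `w` is not occupied after `T` particles. -/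
theorem IsDriving.unocc [IsFiniteMeasure μ] (hX : IsDriving G z μ X) (hG : G.Connected)
    (hV : 2 ≤ Fintype.card V) {w : V} (hwz : w ≠ z) {h : V → ℝ} (hz : h z = 0)
    (h0 : ∀ v, 0 ≤ h v) (h1 : ∀ v, h v ≤ 1)
    (hh : ∀ v, v ≠ w → v ≠ z → ∑ u, walkProb G z v u * h u = h v)
    (lam : ℝ) (hlam : 0 ≤ lam) (T : ℕ) :
    μ.real {ω | w ∉ occupied z (fun t k => X t k ω) T} ≤
      Real.exp (lam * ∑ v, h v) *
        (1 - (1 - Real.exp (-lam)) * (∑ v, startProb z v * h v)) ^ T := by
  obtain ⟨c, hc, hct⟩ := exists_tail_bound G hG z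
  set S := ∑ v, startProb z v * h v with hS
  have hS0 : 0 ≤ S := Finset.sum_nonneg (fun v _ => mul_nonneg (startProb_nonneg hV z v) (h0 v))
  have hS1 : S ≤ 1 := by
    rw [← startProb_sum hV z]
    apply Finset.sum_le_sum
    intro v _
    calc startProb z v * h v ≤ startProb z v * 1 :=
          mul_le_mul_of_nonneg_left (h1 v) (startProb_nonneg hV z v)
      _ = _ := mul_one _
  have hel : Real.exp (-lam) ≤ 1 := by rw [Real.exp_le_one_iff]; linarith
  have hep := Real.exp_pos (-lam)
  have hρ0 : 0 ≤ 1 - (1 - Real.exp (-lam)) * S := by nlinarith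
  -- bound for each truncation level
  have hm : ∀ m : ℕ, μ.real {ω | w ∉ occupied z (fun t k => X t k ω) T} ≤
      T * (1 / (c * ((m : ℝ) + 1))) + Real.exp (lam * ∑ v, h v) *
        (1 - (1 - Real.exp (-lam)) * S + 1 / (c * ((m : ℝ) + 1))) ^ T := by
    intro m
    have hτ0 : 0 ≤ 1 / (c * ((m : ℝ) + 1)) := by positivity
    have hsub : {ω | w ∉ occupied z (fun t k => X t k ω) T} ⊆
        (⋃ t ∈ Finset.range T, {ω | ∀ k ≤ m + 1, X t k ω ≠ z}) ∪
          {ω | w ∉ occT z (m + 1) T (fun t k => X t k ω)} := by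
      intro ω hω
      by_cases hall : ∀ t < T, ∃ k ≤ m + 1, X t k ω = z
      · right
        have := occupied_eq_occT (z := z) (m + 1) T (fun t k => X t k ω) hall
        have hω' : w ∉ occupied z (fun t k => X t k ω) T := hω
        rw [this] at hω'
        exact hω'
      · left
        push Not at hall
        obtain ⟨t, ht, hk⟩ := hall
        simp only [Set.mem_iUnion]
        exact ⟨t, Finset.mem_range.2 ht, hk⟩
    have b1 : μ.real (⋃ t ∈ Finset.range T, {ω | ∀ k ≤ m + 1, X t k ω ≠ z}) ≤
        T * (1 / (c * ((m : ℝ) + 1))) := by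
      refine le_trans (measureReal_biUnion_finset_le _ _) ?_
      calc ∑ t ∈ Finset.range T, μ.real {ω | ∀ k ≤ m + 1, X t k ω ≠ z}
          ≤ ∑ t ∈ Finset.range T, (1 / (c * ((m : ℝ) + 1))) := by
            apply Finset.sum_le_sum
            intro t _
            have := hX.late hV hc hct t (m + 1) (Nat.succ_pos m)
            rw [Nat.cast_add, Nat.cast_one] at this
            exact this
        _ = T * (1 / (c * ((m : ℝ) + 1))) := by
            rw [Finset.sum_const, Finset.card_range, nsmul_eq_mul]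
    have b2 := hX.trunc hG hV hwz hz h0 h1 hh lam hlam (m + 1) (1 / (c * ((m : ℝ) + 1)))
      (by
        intro σ hσ v
        have h5 := hct σ hσ (m + 1) v
        rw [Nat.cast_add, Nat.cast_one] at h5
        rw [le_div_iff₀ (by positivity)]
        linarith)
      (by rw [← hS]; linarith) T
    rw [← hS] at b2
    calc μ.real {ω | w ∉ occupied z (fun t k => X t k ω) T}
        ≤ μ.real ((⋃ t ∈ Finset.range T, {ω | ∀ k ≤ m + 1, X t k ω ≠ z}) ∪
          {ω | w ∉ occT z (m + 1) T (fun t k => X t k ω)}) := measureReal_mono hsub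
      _ ≤ _ := measureReal_union_le _ _
      _ ≤ _ := add_le_add b1 b2
  -- pass to the limit
  have hlim0 : Tendsto (fun m : ℕ => 1 / (c * ((m : ℝ) + 1))) atTop (𝓝 0) := by
    have h5 : Tendsto (fun m : ℕ => 1 / c * (1 / ((m : ℝ) + 1))) atTop (𝓝 (1 / c * 0)) :=
      tendsto_one_div_add_atTop_nhds_zero_nat.const_mul _
    rw [mul_zero] at h5
    refine h5.congr (fun m => ?_)
    field_simp
  have hlim : Tendsto (fun m : ℕ => T * (1 / (c * ((m : ℝ) + 1))) + Real.exp (lam * ∑ v, h v) *
        (1 - (1 - Real.exp (-lam)) * S + 1 / (c * ((m : ℝ) + 1))) ^ T) atTop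
      (𝓝 (T * 0 + Real.exp (lam * ∑ v, h v) *
        (1 - (1 - Real.exp (-lam)) * S + 0) ^ T)) := by
    apply Tendsto.add
    · exact hlim0.const_mul _
    · apply Tendsto.const_mul
      apply Tendsto.pow
      exact tendsto_const_nhds.add hlim0
  have hfin := ge_of_tendsto' hlim hm
  rw [mul_zero, zero_add, add_zero] at hfin
  exact hfin

end decomposition

end Pool.Agent.IDLA
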