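import Mathlib
import Pool.Agent.IDLA.Prob
import Pool.Agent.IDLA.Exists

/-!
# The filling time of a transitive graph
-/

namespace Pool.Agent.IDLA

open Finset MeasureTheory Filter Topology

set_option linter.unusedSectionVars false

variable {V : Type*} [Fintype V] [DecidableEq V]

/-- The hitting probabilities, in terms of the walk. -/
theorem exists_h (G : SimpleGraph V) (hG : G.Connected) (htr : VertexTransitive G)
    (w z : V) (hwz : w ≠ z) :
    ∃ h : V → ℝ, h z = 0 ∧ (∀ v, 0 ≤ h v) ∧ (∀ v, h v ≤ 1) ∧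
      (∀ v, v ≠ w → v ≠ z → ∑ u, walkProb G z v u * h u = h v) ∧
      ∑ v, h v = (Fintype.card V : ℝ) / 2 := by
  classical
  obtain ⟨h, -, hz, h0, h1, hh, hs⟩ := exists_harmonic G hG htr w z hwz
  refine ⟨h, hz, h0, h1, ?_, hs⟩
  intro v hvw hvz
  have hd : 0 < G.degree v := by
    rw [SimpleGraph.degree_pos_iff_exists_adj]
    obtain ⟨p⟩ := hG.preconnected v z
    cases p with
    | nil => exact absurd rfl hvz
    | cons h _ => exact ⟨_, h⟩
  have hnc : (G.neighborSet v).ncard = G.degree v := by
    rw [← SimpleGraph.card_neighborFinset_eq_degree, ← Set.ncard_coe_finset]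
    congr 1
    ext u
    simp
  have h2 : ∑ u, walkProb G z v u * h u = ∑ u ∈ G.neighborFinset v, (1 / (G.degree v : ℝ)) * h u := by
    rw [SimpleGraph.neighborFinset_eq_filter, Finset.sum_filter]
    apply Finset.sum_congr rfl
    intro u _
    unfold walkProb
    rw [if_neg hvz, hnc]
    split_ifs <;> simp
  rw [h2, ← Finset.mul_sum, hh v hvw hvz]
  have : (G.degree v : ℝ) ≠ 0 := by exact_mod_cast hd.ne'
  field_simp

section

variable {G : SimpleGraph V} {z : V} {Ω : Type*} [MeasurableSpace Ω] {μ : Measure Ω}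
  {X : ℕ → ℕ → Ω → V}

/-- The probability that the graph is not full after `T` particles. -/
theorem IsDriving.not_full [IsFiniteMeasure μ] (hX : IsDriving G z μ X) (hG : G.Connected)
    (htr : VertexTransitive G) (hV : 2 ≤ Fintype.card V) (lam : ℝ) (hlam : 0 ≤ lam) (T : ℕ) :
    μ.real {ω | occupied z (fun t k => X t k ω) T ≠ univ.erase z} ≤
      Fintype.card V * Real.exp (lam * (Fintype.card V / 2) - lam / (1 + lam) * (T / 2)) := by
  have hn : (2 : ℝ) ≤ Fintype.card V := by exact_mod_cast hV
  have hone : ∀ w ∈ univ.erase z, μ.real {ω | w ∉ occupied z (fun t k => X t k ω) T} ≤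
      Real.exp (lam * (Fintype.card V / 2) - lam / (1 + lam) * (T / 2)) := by
    intro w hw
    have hwz : w ≠ z := Finset.ne_of_mem_erase hw
    obtain ⟨h, hz, h0, h1, hh, hs⟩ := exists_h G hG htr w z hwz
    have h2 := hX.unocc hG hV hwz hz h0 h1 hh lam hlam T
    refine le_trans h2 ?_
    rw [hs]
    have hS : ∑ v, startProb z v * h v = ((Fintype.card V : ℝ) / 2) / ((Fintype.card V : ℝ) - 1) := by
      rw [startProb_sum_mul]
      congr 1
      rw [← hs, ← Finset.add_sum_erase _ _ (Finset.mem_univ z), hz, zero_add]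
    have hS2 : 1 / 2 ≤ ∑ v, startProb z v * h v := by
      rw [hS, le_div_iff₀ (by linarith)]
      linarith
    have hS3 : ∑ v, startProb z v * h v ≤ 1 := by
      rw [← startProb_sum hV z]
      apply Finset.sum_le_sum
      intro v _
      calc startProb z v * h v ≤ startProb z v * 1 :=
            mul_le_mul_of_nonneg_left (h1 v) (startProb_nonneg hV z v)
        _ = _ := mul_one _
    set S := ∑ v, startProb z v * h v
    have hlam1 : 0 < 1 + lam := by linarith
    -- 1 - exp(-lam) ≥ lam/(1+lam)
    have he : lam / (1 + lam) ≤ 1 - Real.exp (-lam) := by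
      have h5 : 1 + lam ≤ Real.exp lam := by
        have := Real.add_one_le_exp lam
        linarith
      have h6 : Real.exp (-lam) ≤ 1 / (1 + lam) := by
        rw [Real.exp_neg, ← one_div]
        exact one_div_le_one_div_of_le hlam1 h5
      have h7 : lam / (1 + lam) = 1 - 1 / (1 + lam) := by field_simp; ring
      linarith
    have he0 : 0 ≤ lam / (1 + lam) := by positivity
    have hel : 1 - Real.exp (-lam) ≤ 1 := by
      have := Real.exp_pos (-lam)
      linarith
    have hbase0 : 0 ≤ 1 - (1 - Real.exp (-lam)) * S := by nlinarith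
    have hbase : 1 - (1 - Real.exp (-lam)) * S ≤ Real.exp (-(lam / (1 + lam) / 2)) := by
      have h8 := Real.add_one_le_exp (-(lam / (1 + lam) / 2))
      have h9 : lam / (1 + lam) / 2 ≤ (1 - Real.exp (-lam)) * S := by nlinarith
      linarith
    have hpow : (1 - (1 - Real.exp (-lam)) * S) ^ T ≤ Real.exp (-(lam / (1 + lam) / 2)) ^ T :=
      pow_le_pow_left₀ hbase0 hbase T
    rw [← Real.exp_nat_mul] at hpow
    calc Real.exp (lam * (Fintype.card V / 2)) * (1 - (1 - Real.exp (-lam)) * S) ^ T
        ≤ Real.exp (lam * (Fintype.card V / 2)) * Real.exp (T * -(lam / (1 + lam) / 2)) :=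
          mul_le_mul_of_nonneg_left hpow (Real.exp_pos _).le
      _ = Real.exp (lam * (Fintype.card V / 2) - lam / (1 + lam) * (T / 2)) := by
          rw [← Real.exp_add]
          congr 1
          ring
  have hsub : {ω | occupied z (fun t k => X t k ω) T ≠ univ.erase z} ⊆
      ⋃ w ∈ univ.erase z, {ω | w ∉ occupied z (fun t k => X t k ω) T} := by
    intro ω hω
    by_contra hcon
    apply hω
    simp only [Set.mem_iUnion, not_exists] at hcon
    apply Finset.Subset.antisymm
    · intro v hv
      rw [Finset.mem_erase]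
      refine ⟨?_, Finset.mem_univ v⟩
      rintro rfl
      exact occupied_z _ _ hv
    · intro v hv
      by_contra hv'
      exact hcon v hv hv'
  calc μ.real {ω | occupied z (fun t k => X t k ω) T ≠ univ.erase z}
      ≤ μ.real (⋃ w ∈ univ.erase z, {ω | w ∉ occupied z (fun t k => X t k ω) T}) :=
        measureReal_mono hsub (measure_ne_top _ _)
    _ ≤ ∑ w ∈ univ.erase z, μ.real {ω | w ∉ occupied z (fun t k => X t k ω) T} :=
        measureReal_biUnion_finset_le _ _
    _ ≤ ∑ w ∈ univ.erase z,
        Real.exp (lam * (Fintype.card V / 2) - lam / (1 + lam) * (T / 2)) :=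
        Finset.sum_le_sum hone
    _ = ((univ.erase z).card : ℝ) *
        Real.exp (lam * (Fintype.card V / 2) - lam / (1 + lam) * (T / 2)) := by
        rw [Finset.sum_const, nsmul_eq_mul]
    _ ≤ Fintype.card V * Real.exp (lam * (Fintype.card V / 2) - lam / (1 + lam) * (T / 2)) := by
        apply mul_le_mul_of_nonneg_right _ (Real.exp_pos _).le
        have : (univ.erase z).card ≤ Fintype.card V := by
          rw [← Finset.card_univ]
          exact Finset.card_le_card (Finset.erase_subset _ _)
        exact_mod_cast this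

/-- If the graph is full after `T` particles then `#V - 1 ≤ T_full ≤ T`. -/
theorem fillTime_of_full (x : ℕ → ℕ → V) (T : ℕ) (h : occupied z x T = univ.erase z) :
    ∃ t : ℕ, fillTime z x = (t : ℕ∞) ∧ t ≤ T ∧ Fintype.card V ≤ t + 1 := by
  have hne : ∃ t, occupied z x t = univ.erase z := ⟨T, h⟩
  classical
  refine ⟨Nat.find hne, ?_, Nat.find_min' hne h, ?_⟩
  · unfold fillTime
    apply le_antisymm
    · exact sInf_le ⟨Nat.find hne, rfl, Nat.find_spec hne⟩
    · apply le_sInf
      rintro s ⟨t, rfl, ht⟩
      exact_mod_cast Nat.find_min' hne ht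
  · have h1 := occupied_card (z := z) x (Nat.find hne)
    rw [Nat.find_spec hne, Finset.card_erase_of_mem (Finset.mem_univ z), Finset.card_univ] at h1
    omega

/-- The quantitative bound. -/
theorem IsDriving.fill_bound [IsFiniteMeasure μ] (hX : IsDriving G z μ X) (hG : G.Connected)
    (htr : VertexTransitive G) (hV : 2 ≤ Fintype.card V) (ε : ℝ) (hε : 0 < ε)
    (hVε : 1 ≤ ε * Fintype.card V) :
    μ.real {ω | fillTime z (fun t k => X t k ω) = ⊤ ∨
        ε < |((fillTime z (fun t k => X t k ω)).toNat : ℝ) / Fintype.card V - 1|} ≤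
      Fintype.card V * Real.exp (1 / 2 - ε ^ 2 / (8 + 4 * ε) * Fintype.card V) := by
  set n : ℝ := (Fintype.card V : ℝ) with hn
  have hn2 : (2 : ℝ) ≤ n := by rw [hn]; exact_mod_cast hV
  set T : ℕ := ⌊(1 + ε) * n⌋₊ with hT
  have hT1 : (T : ℝ) ≤ (1 + ε) * n := Nat.floor_le (by positivity)
  have hT2 : (1 + ε) * n - 1 ≤ T := by
    have := Nat.lt_floor_add_one ((1 + ε) * n)
    linarith
  have hsub : {ω | fillTime z (fun t k => X t k ω) = ⊤ ∨
        ε < |((fillTime z (fun t k => X t k ω)).toNat : ℝ) / n - 1|} ⊆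
      {ω | occupied z (fun t k => X t k ω) T ≠ univ.erase z} := by
    intro ω hω hfull
    obtain ⟨t, ht1, ht2, ht3⟩ := fillTime_of_full (fun t k => X t k ω) T hfull
    have hω' : fillTime z (fun t k => X t k ω) = ⊤ ∨
        ε < |((fillTime z (fun t k => X t k ω)).toNat : ℝ) / n - 1| := hω
    rw [ht1] at hω'
    rcases hω' with h | h
    · exact absurd h (ENat.natCast_ne_top t)
    · rw [ENat.toNat_natCast] at h
      have h4 : (t : ℝ) ≤ (1 + ε) * n := le_trans (by exact_mod_cast ht2) hT1
      have h5 : n ≤ t + 1 := by rw [hn]; exact_mod_cast ht3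
      have h6 : |(t : ℝ) / n - 1| ≤ ε := by
        rw [abs_le]
        constructor
        · have : 1 - 1 / n ≤ (t : ℝ) / n := by
            rw [le_div_iff₀ (by linarith)]
            have : (1 - 1 / n) * n = n - 1 := by field_simp
            linarith
          have h7 : 1 / n ≤ ε := by
            rw [div_le_iff₀ (by linarith)]
            linarith
          linarith
        · have : (t : ℝ) / n ≤ 1 + ε := by
            rw [div_le_iff₀ (by linarith)]
            linarith
          linarith
      linarith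
  refine le_trans (measureReal_mono hsub (measure_ne_top _ _)) ?_
  have hb := hX.not_full hG htr hV (ε / 2) (by positivity) T
  refine le_trans hb ?_
  apply mul_le_mul_of_nonneg_left _ (by positivity)
  rw [Real.exp_le_exp, ← hn]
  have h8 : (0 : ℝ) < 1 + ε / 2 := by positivity
  have h9 : ε / 2 / (1 + ε / 2) * (((1 + ε) * n - 1) / 2) ≤ ε / 2 / (1 + ε / 2) * ((T : ℝ) / 2) := by
    apply mul_le_mul_of_nonneg_left _ (by positivity)
    linarith
  have h10 : ε / 2 * (n / 2) - ε / 2 / (1 + ε / 2) * (((1 + ε) * n - 1) / 2) ≤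
      1 / 2 - ε ^ 2 / (8 + 4 * ε) * n := by
    have e1 : ε / 2 * (n / 2) - ε / 2 / (1 + ε / 2) * (((1 + ε) * n - 1) / 2) =
        (ε / 2 / (1 + ε / 2)) * (1 / 2) - ε ^ 2 / (8 + 4 * ε) * n := by
      field_simp
      ring
    rw [e1]
    have e2 : ε / 2 / (1 + ε / 2) ≤ 1 := by
      rw [div_le_one h8]; linarith
    linarith
  linarith

end

end Pool.Agent.IDLA
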